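import Pool.Agent.V11244.CK.MurreD

/-!
# Murre's conjecture (D) and annihilating polynomials of one correspondence

`𝒱` is a class of smooth projective geometrically irreducible varieties over the field `k` closed
under products (for example all of them), `C` the Chow groups with rational coefficients (in the
form of their formal properties, `IsChowProj`) and `H` a Weil cohomology theory (`IsWeilProj`).

Let `a` be a self-correspondence of degree zero of `X` which separates the cohomology groups:
`P_i(a) = 0` on `H^i(X)` for pairwise coprime polynomials `P_0, …, P_(2d)` with rational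
coefficients, and `P_0(a) ∘ ⋯ ∘ P_(2d)(a)` is nilpotent. Then `X` has a Chow-Kunneth decomposition
`π` whose members are polynomials in `a`, and for each `i` it has the property (D) on `CH^i(X)`,
`F^1 CH^i(X) = Ker (cl : CH^i(X) → H^(2i)(X))`, if and only if some power of
`P_0(a) ∘ P_1(a) ∘ ⋯ ∘ P_(2i-1)(a)` annihilates the homologically trivial cycles in `CH^i(X)`.
-/

set_option autoImplicit false

open Polynomial

universe u v w

namespace Pool.Agent.Results.MP_583472_ag.AnnihilatingPolynomial

open Pool.Agent.H914 Pool.Agent.W492.BB Pool.Agent.TH133 Pool.Agent.V11244.CK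

/-- For every correspondence `a` which separates the cohomology groups of `X` there is a
Chow-Kunneth decomposition of `X` by polynomials in `a` such that, for each `i`, the property (D)
holds on `CH^i(X)` if and only if a power of `P_0(a) ⋯ P_(2i-1)(a)` annihilates the homologically
trivial cycles in `CH^i(X)`. -/
theorem result {k : Type u} [Field k] {𝒱 : VarClass k} (C : TheoryData.{u, v, 0} 𝒱 ℚ)
    [IsChowProj C] {K : Type w} [Field K] (H : WeilTheoryData.{u, v, w} C K) [IsWeilProj H]
    (X : 𝒱.Obj) (a : C.A (X.prod X)) (P : ℕ → ℚ[X]) (h : Separates H a P) :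
    ∃ (π : ℕ → C.A (X.prod X)) (E : ℕ → ℚ[X]), IsCK H X π ∧
      (∀ i ≤ 2 * X.dim, π i = evalAt C a (E i)) ∧
      ∀ i : ℕ, (∀ x : C.A X, x ∈ ckFil C π i 1 ↔ C.Deg i x ∧ H.cl x = 0) ↔
        ∃ m : ℕ, ∀ x ∈ C.gr X i, H.cl x = 0 →
          C.act (evalAt C a (lowProd X P i ^ m)) x = 0 :=
  d_main h

end Pool.Agent.Results.MP_583472_ag.AnnihilatingPolynomial
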