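import Pool.Agent.V1157.MJ.Mid

/-!
# Murre's conjecture (D) and the middle-dimensional cycles of self-products
-/

open CategoryTheory AlgebraicGeometry

universe u v w

namespace Pool.Agent.Results.MP_583472_ag.MiddleDimension

open Pool.Agent.H914 Pool.Agent.H914.VarClass Pool.Agent.H914.VarClass.Obj Pool.Agent.W492.BB
  Pool.Agent.TH133 Pool.Agent.V1157.MJ

/-- For a class `𝒱` of varieties closed under products, their Chow groups `C` and a Weil cohomology
`H`: Murre's conjecture (D) for the single group `CH^d(X × X)`, `d = dim X`, and the product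
decompositions implies (D), (C) and the first half of (B) for `X`, the vanishing of all
compositions of `2 d + 1` homologically trivial self-correspondences, and the uniqueness of the
decomposition of `X` up to conjugation; and (D) for all varieties is equivalent to (D) for the
groups `CH^d(X × X)`, and to the property that homologically trivial self-correspondences of
degree zero strictly lower the weights. -/
theorem result {k : Type u} [Field k] (𝒱 : VarClass k) (C : TheoryData.{u, v, 0} 𝒱 ℚ)
    [IsChowProj C] (K : Type w) [Field K] (H : WeilTheoryData.{u, v, w} C K) [IsWeilProj H] :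
    (∀ X : 𝒱.Obj, (MidD H X → StrictlyLowers H X) ∧
      (StrictlyLowers H X → MurreD H X ∧ MurreC H X ∧ MurreB0 H X ∧
        ((∃ π, IsCK H X π) →
          NilpotentOfIndex H X (2 * X.dim + 1) ∧ UniqueUpToConjugation H X))) ∧
    ((∀ X : 𝒱.Obj, MurreD H X) ↔ ∀ X : 𝒱.Obj, MidD H X) ∧
    ((∀ X : 𝒱.Obj, MurreD H X) ↔ ∀ X : 𝒱.Obj, StrictlyLowers H X) := by
  have hmid : (∀ X : 𝒱.Obj, MurreD H X) → ∀ X : 𝒱.Obj, MidD H X := by
    intro h X π ρ hπ hρ γ hγ hcl
    exact (h (X.prod X) _ (hπ.dual.prod hρ) X.dim γ).2 ⟨hγ, hcl⟩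
  refine ⟨fun X => ⟨strictlyLowers_of_midD X, fun h => ?_⟩, ?_, ?_⟩
  · have hD := murreD_of_strictlyLowers X h
    refine ⟨hD, murreC_of_strictlyLowers X h, murreB0_of_D X hD, fun hA => ?_⟩
    have hN := nilpotent_of_strictlyLowers X hA h
    exact ⟨hN, unique_of_nilpotent X hN⟩
  · exact ⟨hmid, fun h X => murreD_of_strictlyLowers X (strictlyLowers_of_midD X (h X))⟩
  · exact ⟨fun h X => strictlyLowers_of_midD X (hmid h X),
      fun h X => murreD_of_strictlyLowers X (h X)⟩

end Pool.Agent.Results.MP_583472_ag.MiddleDimension
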